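import Mathlib
import Pool.Agent.helper55.Series

set_option autoImplicit false

/-!
Question Q2 of MP_bc5942_al: a group `G = AB` with `A` and `B` simple (so both have a principal
series) such that `G` has no principal series.

`G` is the semidirect product of the additive group of finitely supported infinite matrices over
the field with two elements by the stable general linear group over that field; `A` is the obvious
complement and `B` is the complement given by the (surjective) derivation `a ↦ a P - P`, where `P` is
a matrix with infinitely many ones in each row and exactly one in each column.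
-/

namespace Pool.Agent.Results.MP_bc5942_al.PrincipalSeries

/-- `G` has a principal series: a finite chain `1 = s 0 < s 1 < ... < s m = G` of normal subgroups
of `G` such that no normal subgroup of `G` lies strictly between two consecutive terms. -/
def HasPrincipalSeries (G : Type) [Group G] : Prop :=
  ∃ (m : ℕ) (s : Fin (m + 1) → Subgroup G), s 0 = ⊥ ∧ s (Fin.last m) = ⊤ ∧
    (∀ i, (s i).Normal) ∧
    ∀ i : Fin m, s i.castSucc < s i.succ ∧ ∀ M : Subgroup G, M.Normal →
      s i.castSucc ≤ M → M ≤ s i.succ → M = s i.castSucc ∨ M = s i.succ

lemma hasPrincipalSeries_of_simple {G : Type} [Group G] (hG : IsSimpleGroup G) :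
    HasPrincipalSeries G := by
  obtain ⟨s, hs0, hs1⟩ : ∃ s : Fin (1+1) → Subgroup G, s 0 = ⊥ ∧ s 1 = ⊤ :=
    ⟨fun i => if i = 0 then ⊥ else ⊤, if_pos rfl, if_neg (by decide)⟩
  refine ⟨1, s, hs0, hs1, ?_, ?_⟩
  · intro i
    fin_cases i
    · show (s 0).Normal
      rw [hs0]; infer_instance
    · show (s 1).Normal
      rw [hs1]; infer_instance
  · intro i
    have hi : i = 0 := Subsingleton.elim _ _
    subst hi
    have h0 : s (Fin.castSucc (0 : Fin 1)) = ⊥ := hs0
    have h1 : s (Fin.succ (0 : Fin 1)) = ⊤ := hs1
    rw [h0, h1]
    exact ⟨bot_lt_top, fun M hM _ _ => hM.eq_bot_or_eq_top⟩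

/-- There is a group `G` with simple subgroups `A`, `B` such that `G = AB`; `A` and `B` have a
principal series, but `G` has none. -/
theorem result : ∃ (G : Type) (_ : Group G) (A B : Subgroup G),
    (∀ g : G, ∃ a ∈ A, ∃ b ∈ B, g = a * b) ∧
    IsSimpleGroup A ∧ IsSimpleGroup B ∧
    HasPrincipalSeries A ∧ HasPrincipalSeries B ∧ ¬ HasPrincipalSeries G := by
  refine ⟨Helper55.GG, inferInstance, Helper55.iA.range, Helper55.iB.range,
    Helper55.factorization, Helper55.simple_A, Helper55.simple_B,
    hasPrincipalSeries_of_simple Helper55.simple_A,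
    hasPrincipalSeries_of_simple Helper55.simple_B, ?_⟩
  intro h
  exact Helper55.no_principal_series (fun k => Helper55.NK k) (fun k => inferInstance)
    (fun k => Helper55.NK_lt k) h

end Pool.Agent.Results.MP_bc5942_al.PrincipalSeries
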